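import Pool.Agent.H23.GC.Targets2

/-!
# Perfect spanning sets of large size: radius four, the classes `2 m ≡ 1` and `2 m ≡ 4` modulo `5`
-/

set_option autoImplicit false

open Finset Pool.Agent.H23.GW
open scoped Classical Nat

namespace Pool.Agent.H23.GC

noncomputable section

variable {ι : Type} [Fintype ι]

/-- (SY) permuting the positions of words, and decomposing words in two blocks. -/
def T_SY : Prop :=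
  ∀ (ι : Type) [Fintype ι] (G : Type) [AddCommGroup G] (ev : (ι → ℤ) →+ G),
    (∀ (κ κ' : Type) [Fintype κ] [Fintype κ'] (e : κ ≃ κ') (P : (κ' → ι × Bool) → Prop),
      #{z ∈ Zr ev κ | P (z ∘ e.symm)} = #{z ∈ Zr ev κ' | P z}) ∧
    ∀ (κ κ' : Type) [Fintype κ] [Fintype κ'] (P : (κ → ι × Bool) → Prop)
      (Q : (κ' → ι × Bool) → Prop),
      #{z ∈ Zr ev (κ ⊕ κ') | P (z ∘ Sum.inl) ∧ Q (z ∘ Sum.inr)} =
        ∑ q ∈ Vn ι (Fintype.card κ) ×ˢ Vn ι (Fintype.card κ') with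
          ev q.1 = ev q.2 ∧ nrm (q.1 - q.2) = Fintype.card κ + Fintype.card κ',
          #{w : κ → ι × Bool | vs w = q.1 ∧ P w} * #{u : κ' → ι × Bool | vs u = -q.2 ∧ Q u}

/-- exceptional type `(3, 2, 2, 1, 1, 1)` -/
def X2 (v : ι → ℤ) : Prop :=
  ell v = 6 ∧ ∃ x, (v x).natAbs = 3 ∧ ∀ y, y ≠ x → (v y).natAbs ≤ 2

/-- exceptional type `(2, 2, 2, 1, 1, 1)` -/
def X1 (v : ι → ℤ) : Prop := ell v = 6 ∧ ∀ y, (v y).natAbs ≤ 2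

/-- (NX) kernel vectors with many defects, radius four. -/
def T_NX : Prop :=
  ∃ C : ℝ, ∀ (ι : Type) [Fintype ι] (G : Type) [AddCommGroup G] [Fintype G]
    (ev : (ι → ℤ) →+ G), PC 4 ev → Odd (Fintype.card G) → 1 ≤ Fintype.card ι →
    (#{v ∈ Vn ι 10 | ev v = 0 ∧ ell v ≤ 6 ∧ ¬ X2 v} : ℝ) ≤ C * (Fintype.card ι : ℝ) ^ 2 ∧
    (#{v ∈ Vn ι 9 | ev v = 0 ∧ ell v ≤ 6 ∧ ¬ X1 v} : ℝ) ≤ C * (Fintype.card ι : ℝ) ^ 2

/-- number of words of length `9` with pattern `(2, 2)` -/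
def z9 {G : Type} [AddCommGroup G] (ev : (ι → ℤ) →+ G) : ℕ :=
  #{z ∈ Zr ev (Fin 9) | z 0 = z 1 ∧ z 2 = z 3}

/-- number of words of length `9` with pattern `(2, 2, 2)` -/
def al {G : Type} [AddCommGroup G] (ev : (ι → ℤ) →+ G) : ℕ :=
  #{z ∈ Zr ev (Fin 9) | z 0 = z 1 ∧ z 2 = z 3 ∧ z 4 = z 5}

/-- number of words of length `10` with pattern `(2, 2)` -/
def z10 {G : Type} [AddCommGroup G] (ev : (ι → ℤ) →+ G) : ℕ :=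
  #{z ∈ Zr ev (Fin 10) | z 0 = z 1 ∧ z 2 = z 3}

/-- number of words of length `10` with pattern `(2, 2, 2)` -/
def z10b {G : Type} [AddCommGroup G] (ev : (ι → ℤ) →+ G) : ℕ :=
  #{z ∈ Zr ev (Fin 10) | z 0 = z 1 ∧ z 2 = z 3 ∧ z 4 = z 5}

/-- number of words of length `10` with pattern `(3, 2)` -/
def z10c {G : Type} [AddCommGroup G] (ev : (ι → ℤ) →+ G) : ℕ :=
  #{z ∈ Zr ev (Fin 10) | z 0 = z 1 ∧ z 1 = z 2 ∧ z 3 = z 4}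

/-- number of words of length `10` with pattern `(3, 2, 2)` -/
def ga {G : Type} [AddCommGroup G] (ev : (ι → ℤ) →+ G) : ℕ :=
  #{z ∈ Zr ev (Fin 10) | z 0 = z 1 ∧ z 1 = z 2 ∧ z 3 = z 4 ∧ z 5 = z 6}

/-- type `(2, 1, 1, 1)` -/
def t1 (c : ι → ℤ) : Prop := ell c = 4

/-- type `(2, 2, 1)` -/
def t22 (c : ι → ℤ) : Prop := ell c = 3 ∧ ∀ x, (c x).natAbs ≤ 2

/-- type `(3, 1, 1)` -/
def t3 (c : ι → ℤ) : Prop := ell c = 3 ∧ ∃ x, 3 ≤ (c x).natAbs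

/-- type `(3, 2)` -/
def t32 (c : ι → ℤ) : Prop := ell c = 2 ∧ ∀ x, (c x).natAbs ≤ 3

/-- type `(2, 1, 1)` for norm four -/
def e1 (d : ι → ℤ) : Prop := ell d = 3

/-- type `(2, 2)` for norm four -/
def e22 (d : ι → ℤ) : Prop := ell d = 2 ∧ ∀ x, (d x).natAbs ≤ 2

/-- number of ordered pairs of distinct vectors of norm five with the same image -/
def P5 {G : Type} [AddCommGroup G] (ev : (ι → ℤ) →+ G) (A B : (ι → ℤ) → Prop) : ℕ :=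
  #{q ∈ Vn ι 5 ×ˢ Vn ι 5 | ev q.1 = ev q.2 ∧ q.1 ≠ q.2 ∧ A q.1 ∧ B q.2}

/-- number of pairs of vectors of norms four and five with the same image -/
def P4 {G : Type} [AddCommGroup G] (ev : (ι → ℤ) →+ G) (A B : (ι → ℤ) → Prop) : ℕ :=
  #{q ∈ Vn ι 4 ×ˢ Vn ι 5 | ev q.1 = ev q.2 ∧ A q.1 ∧ B q.2}

/-- (N5) negligible pairs. -/
def T_N5 : Prop :=
  ∃ C : ℝ, ∀ (ι : Type) [Fintype ι] (G : Type) [AddCommGroup G] [Fintype G]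
    (ev : (ι → ℤ) →+ G), PC 4 ev → Odd (Fintype.card G) → 1 ≤ Fintype.card ι →
    (#{q ∈ Vn ι 5 ×ˢ Vn ι 5 | ev q.1 = ev q.2 ∧ q.1 ≠ q.2 ∧ ell q.1 + ell q.2 ≤ 6 ∧
      ell q.1 ≤ 4 ∧ ell q.2 ≤ 4 ∧
      ¬ (t3 q.1 ∧ t22 q.2) ∧ ¬ (t22 q.1 ∧ t3 q.2) ∧ ¬ (t1 q.1 ∧ t32 q.2) ∧
      ¬ (t32 q.1 ∧ t1 q.2)} : ℝ) ≤ C * (Fintype.card ι : ℝ) ^ 2 ∧
    (#{q ∈ Vn ι 4 ×ˢ Vn ι 5 | ev q.1 = ev q.2 ∧ ell q.1 + ell q.2 ≤ 6 ∧
      ell q.1 ≤ 3 ∧ ell q.2 ≤ 4 ∧ ¬ (e1 q.1 ∧ t22 q.2) ∧ ¬ (e22 q.1 ∧ t1 q.2)} : ℝ) ≤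
      C * (Fintype.card ι : ℝ) ^ 2

/-- (W3) word counts for type `(3, 2)`. -/
def T_W3 : Prop :=
  ∀ (ι : Type) [Fintype ι] (κ : Type) [Fintype κ], Fintype.card κ = 5 → ∀ v : ι → ℤ, nrm v = 5 →
    t32 v → ∀ i j k l p : κ, [i, j, k, l, p].Nodup →
    #{w : κ → ι × Bool | vs w = v ∧ w i = w j} = 4 ∧
    #{w : κ → ι × Bool | vs w = v ∧ w i = w j ∧ w k = w l} = 2 ∧
    #{w : κ → ι × Bool | vs w = v ∧ w i = w j ∧ w j = w k} = 1 ∧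
    #{w : κ → ι × Bool | vs w = v ∧ w i = w j ∧ w j = w k ∧ w l = w p} = 1

/-- (E5) exact inequalities for pairs of vectors of norm five. -/
def T_E5 : Prop :=
  ∀ (ι : Type) [Fintype ι] (G : Type) [AddCommGroup G] (ev : (ι → ℤ) →+ G), PC 4 ev →
    36 * P5 ev t1 t1 + 72 * P5 ev t1 t22 + 72 * P5 ev t1 t3 + 72 * P5 ev t3 t22 +
      48 * P5 ev t1 t32 ≤ z10 ev ∧
    12 * P5 ev t1 t22 + 12 * P5 ev t3 t22 + 12 * P5 ev t1 t32 ≤ z10b ev ∧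
    12 * P5 ev t1 t3 + 12 * P5 ev t3 t22 + 6 * P5 ev t1 t32 ≤ z10c ev ∧
    4 * P5 ev t3 t22 ≤ ga ev ∧ 6 * P5 ev t1 t32 ≤ ga ev

/-- (E4) exact inequalities for pairs of vectors of norms four and five. -/
def T_E4 : Prop :=
  ∀ (ι : Type) [Fintype ι] (G : Type) [AddCommGroup G] (ev : (ι → ℤ) →+ G), PC 4 ev →
    12 * P4 ev e1 t1 + 12 * P4 ev e1 t22 + 12 * P4 ev e22 t1 ≤ z9 ev ∧
    4 * P4 ev e1 t22 ≤ al ev ∧ 12 * P4 ev e22 t1 ≤ al ev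

/-- (G5) lower bounds for the main exceptional pairs. -/
def T_G5 : Prop :=
  ∃ C : ℝ, ∀ (ι : Type) [Fintype ι] (G : Type) [AddCommGroup G] [Fintype G]
    (ev : (ι → ℤ) →+ G), PC 4 ev → Odd (Fintype.card G) → 1 ≤ Fintype.card ι →
    (ga ev : ℝ) ≤ 4 * P5 ev t3 t22 + C * (Fintype.card ι : ℝ) ^ 2 ∧
    (al ev : ℝ) ≤ 4 * P4 ev e1 t22 + C * (Fintype.card ι : ℝ) ^ 2

/-- (U4) upper bounds with the defect of the last block. -/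
def T_U4 : Prop :=
  ∀ (ι : Type) [Fintype ι] (G : Type) [AddCommGroup G] (ev : (ι → ℤ) →+ G), PC 4 ev →
    z9 ev + 6 * al ev ≤ 24 * (2 * Fintype.card ι) ^ 3 ∧
    z10c ev + 6 * ga ev ≤ 24 * (2 * Fintype.card ι) ^ 3 ∧
    z10b ev ≤ 24 * (2 * Fintype.card ι) ^ 3

/-- (L4) lower bounds. -/
def T_L4 : Prop :=
  ∃ C : ℝ, ∀ (ι : Type) [Fintype ι] (G : Type) [AddCommGroup G] [Fintype G]
    (ev : (ι → ℤ) →+ G), PC 4 ev → Odd (Fintype.card G) → 1 ≤ Fintype.card ι →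
    24 * (2 * Fintype.card ι : ℝ) ^ 3 ≤ z9 ev + 6 * al ev + C * (Fintype.card ι : ℝ) ^ 2 ∧
    24 * (2 * Fintype.card ι : ℝ) ^ 3 ≤ z10b ev + 4 * al ev + C * (Fintype.card ι : ℝ) ^ 2

/-- (Z4) the second order of the number of words with two coincidences. -/
def T_Z4 : Prop :=
  ∃ C : ℝ, ∀ (ι : Type) [Fintype ι] (G : Type) [AddCommGroup G] [Fintype G]
    (ev : (ι → ℤ) →+ G), PC 4 ev → Odd (Fintype.card G) → 1 ≤ Fintype.card ι →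
    (z10 ev : ℝ) ≤ 24 * (24 * #{d ∈ Vn ι 4 | ell d = 4} - 4 * (2 * Fintype.card ι : ℝ) ^ 3) +
      36 * al ev + C * (Fintype.card ι : ℝ) ^ 2

/-- (AL) the bound for the exceptional type `(2, 2, 2, 1, 1, 1)`. -/
def T_AL : Prop :=
  ∃ C : ℝ, ∀ (ι : Type) [Fintype ι] (G : Type) [AddCommGroup G] [Fintype G]
    (ev : (ι → ℤ) →+ G), PC 4 ev → Odd (Fintype.card G) → 1 ≤ Fintype.card ι →
    2 * (al ev : ℝ) ≤ 3 * (2 * Fintype.card ι : ℝ) ^ 3 + C * (Fintype.card ι : ℝ) ^ 2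

/-- (K1) radius four, the residue class `1`. -/
def T_K1 : Prop :=
  ∃ m₀ : ℕ, ∀ (ι : Type) [Fintype ι] (G : Type) [AddCommGroup G] [Fintype G]
    (ev : (ι → ℤ) →+ G), PC 4 ev → Odd (Fintype.card G) → m₀ ≤ Fintype.card ι →
    (2 * Fintype.card ι) % 5 ≠ 1

/-- (K4) radius four, the residue class `4`. -/
def T_K4 : Prop :=
  ∃ m₀ : ℕ, ∀ (ι : Type) [Fintype ι] (G : Type) [AddCommGroup G] [Fintype G]
    (ev : (ι → ℤ) →+ G), PC 4 ev → Odd (Fintype.card G) → m₀ ≤ Fintype.card ι →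
    (2 * Fintype.card ι) % 5 ≠ 4

end

end Pool.Agent.H23.GC
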