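import Pool.Agent.H23.GC.Targets3

/-!
# Perfect spanning sets of large size: assembly
-/

set_option autoImplicit false

open Finset Pool.Agent.H23.GW
open scoped Classical Nat

namespace Pool.Agent.H23.GC

theorem assembly (hP : T_P) (hA : T_A) (hB : T_B) (hJ1 : T_J1) (hJS : T_JS) (hK1 : T_K1)
    (hK4 : T_K4) :
    ∀ s : ℕ, 3 ≤ s → ∃ m₀ : ℕ, ∀ (G : Type) [AddCommGroup G] [Finite G] (A : Finset G),
      m₀ ≤ #A → ¬ PerfectSpanning A s := by
  intro s hs
  obtain ⟨mA, hA⟩ := hA s hs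
  obtain ⟨mB, hB⟩ := hB s hs
  have key : ∃ m₁ : ℕ, ∀ (ι : Type) [Fintype ι] (G : Type) [AddCommGroup G] [Fintype G]
      (ev : (ι → ℤ) →+ G), PC s ev → Odd (Fintype.card G) → m₁ ≤ Fintype.card ι →
      (2 * Fintype.card ι) % (s + 1) ≠ 1 ∧ (2 * Fintype.card ι) % (s + 1) ≠ s := by
    rcases Nat.lt_or_ge s 6 with h6 | h6
    · interval_cases s
      · exact ⟨0, fun ι _ G _ _ ev _ _ _ => by omega⟩
      · obtain ⟨m1, h1⟩ := hK1
        obtain ⟨m4, h4⟩ := hK4
        exact ⟨max m1 m4, fun ι _ G _ _ ev h ho hm =>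
          ⟨h1 ι G ev h ho (le_trans (le_max_left _ _) hm),
            h4 ι G ev h ho (le_trans (le_max_right _ _) hm)⟩⟩
      · exact ⟨0, fun ι _ G _ _ ev _ _ _ => by omega⟩
    · obtain ⟨m1, h1⟩ := hJ1 s h6
      obtain ⟨m4, h4⟩ := hJS s h6
      exact ⟨max m1 m4, fun ι _ G _ _ ev h ho hm =>
        ⟨h1 ι G ev h (le_trans (le_max_left _ _) hm),
          h4 ι G ev h (le_trans (le_max_right _ _) hm)⟩⟩
  obtain ⟨m₁, h₁⟩ := key
  refine ⟨max m₁ (max mA mB), fun G _ _ A hm hps => ?_⟩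
  haveI := Fintype.ofFinite G
  obtain ⟨⟨ev, hev⟩, hodd⟩ := hP G A s (by omega) hps
  have hc : Fintype.card A = #A := Fintype.card_coe A
  have m1 : m₁ ≤ Fintype.card A := by rw [hc]; exact le_trans (le_max_left _ _) hm
  have m2 : mA ≤ Fintype.card A := by
    rw [hc]; exact le_trans (le_trans (le_max_left _ _) (le_max_right _ _)) hm
  have m3 : mB ≤ Fintype.card A := by
    rw [hc]; exact le_trans (le_trans (le_max_right _ _) (le_max_right _ _)) hm
  have a1 := hA A G ev hev hodd m2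
  have a2 := hB A G ev hev hodd m3
  have a3 := h₁ A G ev hev hodd m1
  rcases a1 with a | a | a
  · exact a2 a
  · exact a3.1 a
  · exact a3.2 a

end Pool.Agent.H23.GC
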