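import Pool.Agent.H15.GC.Base

/-!
# GC module J1: the residue class `1` of `2 m` modulo `s + 1` (helper15)
-/

set_option autoImplicit false

open Finset Pool.Agent.H23.GW Pool.Agent.H23.GC Pool.Agent.H15.GC
open scoped Classical Nat

namespace Pool.Agent.H23.GC.J

noncomputable section

theorem j1 (hV : T_V) (hI : T_I) (hF : T_F) (hC : T_C) (hRC : T_RC) (hNP : T_NP) (hPP : T_PP)
    (hPQ : T_PQ) : T_J1 := by
  intro s hs
  obtain ⟨C1, hC1⟩ := hNP s hs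
  obtain ⟨C2, hC2⟩ := hPP s hs
  obtain ⟨C3, hC3⟩ := hC.2.2 (s + 1) (s - 2)
  obtain ⟨C4, hC4⟩ := hC.2.2 s (s - 2)
  obtain ⟨C5, hC5⟩ := hC.2.1 s (by omega)
  set K : ℝ := (s + 1) ^ 2 * |C3| + |C2| + (s + 1) ^ 2 * |C1| + 2 * (s * (s + 1) * |C1|) +
    (s ^ 2 + 2 * s - 2) * |C5| with hK
  obtain ⟨m₀, hm₀⟩ := exists_nat_gt (|K| * (s - 2)!)
  refine ⟨m₀ + 1, ?_⟩
  intro ι _ G _ _ ev hPC hm hmod
  set m : ℕ := Fintype.card ι with hmdef
  have hm1 : 1 ≤ m := by omega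
  have hs1 : 1 ≤ s := by omega
  have hsr : (6:ℝ) ≤ s := by exact_mod_cast hs
  set V0 := Vn ι s with hV0
  set V1 := Vn ι (s + 1) with hV1
  set q := 2 * m / (s + 1) with hq
  have h2m : 2 * m = (s + 1) * q + 1 := by
    have := Nat.div_add_mod (2 * m) (s + 1)
    rw [hmod] at this
    exact this.symm
  have hellV0 : ∀ d ∈ V0, ell d ≤ s := fun d hd => ell_le hV hd
  have hellV1 : ∀ c ∈ V1, ell c ≤ s + 1 := fun c hc => ell_le hV hc
  -- positivity
  have hpos : ∀ d ∈ V0, 0 ≤ (((Dz s ev (ev d) : ℤ) : ℝ) - ell d) ^ 2 -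
      (s - 1) * (((Dz s ev (ev d) : ℤ) : ℝ) - ell d) - s := by
    intro d hd
    have hy := y_eq hI hPC hs1 hd
    rw [← hmdef] at hy
    have h2mz : (2 : ℤ) * m = (s + 1) * q + 1 := by exact_mod_cast h2m
    set k : ℤ := (nb s ev d : ℤ) - q with hk
    have h3 : Dz s ev (ev d) - ell d = ((s : ℤ) + 1) * k - 1 := by
      rw [hk]
      linear_combination -hy - h2mz
    have h4 : 0 ≤ k * (k - 1) := by
      rcases lt_or_ge k 1 with h | h
      · exact mul_nonneg_of_nonpos_of_nonpos (by omega) (by omega)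
      · exact mul_nonneg (by omega) (by omega)
    have h5 : 0 ≤ (Dz s ev (ev d) - ell d) ^ 2 - ((s : ℤ) - 1) * (Dz s ev (ev d) - ell d) - s := by
      rw [h3]
      have : (((s : ℤ) + 1) * k - 1) ^ 2 - ((s : ℤ) - 1) * (((s : ℤ) + 1) * k - 1) - s =
          ((s : ℤ) + 1) ^ 2 * (k * (k - 1)) := by ring
      rw [this]
      positivity
    exact_mod_cast h5
  have hsumpos := sum_nonneg hpos
  -- the sums
  set n0 : ℝ := (#V0 : ℝ) with hn0
  set E1 : ℝ := ∑ d ∈ V0, ((Dz s ev (ev d) : ℤ) : ℝ) with hE1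
  set E2 : ℝ := ∑ d ∈ V0, ((s : ℝ) - ell d) with hE2
  set E3 : ℝ := ∑ d ∈ V0, ((Dz s ev (ev d) : ℤ) : ℝ) * ((s : ℝ) - ell d) with hE3
  set E4 : ℝ := ∑ d ∈ V0, (ell d : ℝ) ^ 2 with hE4
  set E5 : ℝ := ∑ d ∈ V0, ((Dz s ev (ev d) : ℤ) : ℝ) * ((Dz s ev (ev d) : ℤ) : ℝ) with hE5
  have hn0' : ∑ _d ∈ V0, (1:ℝ) = n0 := by rw [sum_const, nsmul_eq_mul, mul_one]
  have hmain : 0 ≤ E5 - 2 * s * E1 + 2 * E3 + E4 - (s - 1) * (E1 - s * n0 + E2) - s * n0 := by
    have h1 : ∑ d ∈ V0, ((((Dz s ev (ev d) : ℤ) : ℝ) - ell d) ^ 2 -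
        (s - 1) * (((Dz s ev (ev d) : ℤ) : ℝ) - ell d) - s) =
        E5 - 2 * s * E1 + 2 * E3 + E4 - (s - 1) * (E1 - s * n0 + E2) - s * n0 := by
      rw [← hn0', hE1, hE2, hE3, hE4, hE5]
      simp only [mul_sum, ← sum_add_distrib, ← sum_sub_distrib]
      exact sum_congr rfl fun d _ => by ring
    rw [← h1]; exact hsumpos
  -- E1
  have hDzr : ∀ g, ((Dz s ev g : ℤ) : ℝ) = ∑ c ∈ V1 with ev c = g, ((s : ℝ) + 1 - ell c) := by
    intro g
    unfold Dz
    push_cast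
    rfl
  have hsumdf : ∑ c ∈ V1, ((s : ℝ) + 1 - ell c) = s * n0 := by
    have h1 := hF ι s
    have h2 : (∑ c ∈ V1, (ell c : ℝ)) + s * n0 = (s + 1) * (#V1 : ℝ) := by
      rw [hn0]; exact_mod_cast h1
    rw [sum_sub_distrib, sum_const, nsmul_eq_mul]
    linarith
  have hE1' : E1 = s * n0 := by
    rw [← hsumdf, ← sum_unique hI hPC hs1 (fun c => (s : ℝ) + 1 - ell c)]
    exact sum_congr rfl fun d _ => hDzr _
  -- N, S, T0
  set N : ℝ := (#{d ∈ V0 | ell d = s} : ℝ) with hN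
  set S : ℝ := (#{d ∈ V0 | ell d = s - 1} : ℝ) with hS
  set W : ℝ := n0 - N with hW
  have hNsum : N = ∑ d ∈ V0, if ell d = s then (1:ℝ) else 0 := card_eq_sum _ _
  have hWS : S ≤ W := by
    rw [hW, hS, hNsum, card_eq_sum, ← hn0', ← sum_sub_distrib]
    refine sum_le_sum fun d _ => ?_
    by_cases h1 : ell d = s
    · rw [if_pos h1, if_neg (by omega)]; norm_num
    · rw [if_neg h1]; split_ifs <;> norm_num
  have hE2' : W ≤ E2 := by
    rw [hW, hNsum, hE2, ← hn0', ← sum_sub_distrib]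
    refine sum_le_sum fun d hd => ?_
    have h0 := hellV0 d hd
    by_cases h1 : ell d = s
    · rw [if_pos h1, h1]; norm_num
    · rw [if_neg h1]
      have h2 : (ell d : ℝ) + 1 ≤ s := by exact_mod_cast (by omega : ell d + 1 ≤ s)
      linarith
  have hE4' : E4 ≤ s ^ 2 * N + (s - 1) ^ 2 * W := by
    rw [hW, hNsum, hE4, ← hn0', ← sum_sub_distrib, mul_sum, mul_sum, ← sum_add_distrib]
    refine sum_le_sum fun d hd => ?_
    have h0 := hellV0 d hd
    by_cases h1 : ell d = s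
    · rw [if_pos h1, h1]; linarith
    · rw [if_neg h1]
      have h2 : (ell d : ℝ) + 1 ≤ s := by exact_mod_cast (by omega : ell d + 1 ≤ s)
      have h3 : (0:ℝ) ≤ ell d := Nat.cast_nonneg _
      have h4 : (ell d : ℝ) ^ 2 ≤ (s - 1) ^ 2 := pow_le_pow_left₀ h3 (by linarith) 2
      linarith
  -- E3
  set P' : ℝ := (#{q ∈ V0 ×ˢ V1 | ev q.1 = ev q.2 ∧ ell q.1 + 1 = s ∧ ell q.2 = s} : ℝ) with hP'
  set NP2 : ℝ := (#{q ∈ V0 ×ˢ V1 | ev q.1 = ev q.2 ∧ ell q.1 + ell q.2 + 3 ≤ 2 * s + 1} : ℝ)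
    with hNP2
  have hE3' : E3 ≤ P' + s * (s + 1) * NP2 := by
    have h2 : E3 = ∑ q ∈ V0 ×ˢ V1, if ev q.2 = ev q.1 then
        ((s : ℝ) + 1 - ell q.2) * ((s : ℝ) - ell q.1) else 0 := by
      rw [← sum_prod_filter V0 V1 (fun d c => ev c = ev d)
        (fun d c => ((s : ℝ) + 1 - ell c) * ((s : ℝ) - ell d)), hE3]
      refine sum_congr rfl fun d _ => ?_
      rw [hDzr, sum_mul]
    rw [h2, hP', hNP2, card_eq_sum, card_eq_sum, mul_sum, ← sum_add_distrib]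
    refine sum_le_sum fun q hqm => ?_
    have hq1 := hellV0 q.1 (mem_product.1 hqm).1
    have hq2 := hellV1 q.2 (mem_product.1 hqm).2
    have hq1r : (ell q.1 : ℝ) ≤ s := by exact_mod_cast hq1
    have hq2r : (ell q.2 : ℝ) ≤ s + 1 := by exact_mod_cast hq2
    have hnn : 0 ≤ (if ev q.1 = ev q.2 ∧ ell q.1 + 1 = s ∧ ell q.2 = s then (1:ℝ) else 0) +
        s * (s + 1) * (if ev q.1 = ev q.2 ∧ ell q.1 + ell q.2 + 3 ≤ 2 * s + 1
          then (1:ℝ) else 0) := by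
      positivity
    by_cases he : ev q.2 = ev q.1
    · rw [if_pos he]
      by_cases h1 : ell q.1 = s
      · refine le_trans (le_of_eq ?_) hnn
        rw [h1]; ring
      by_cases h1' : ell q.2 = s + 1
      · refine le_trans (le_of_eq ?_) hnn
        rw [h1']; push_cast; ring
      by_cases h2' : ell q.1 + 1 = s ∧ ell q.2 = s
      · rw [if_pos ⟨he.symm, h2'.1, h2'.2⟩, if_neg (fun h => by omega)]
        have e1 : (ell q.1 : ℝ) + 1 = s := by exact_mod_cast h2'.1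
        have e2 : (ell q.2 : ℝ) = s := by exact_mod_cast h2'.2
        rw [e2]
        have e3 : (ell q.1 : ℝ) = s - 1 := by linarith
        rw [e3]
        linarith
      · rw [if_neg (fun h => h2' h.2), if_pos ⟨he.symm, by omega⟩]
        have e1 : (0:ℝ) ≤ ell q.1 := Nat.cast_nonneg _
        have e2 : (0:ℝ) ≤ ell q.2 := Nat.cast_nonneg _
        have e3 : ((s : ℝ) + 1 - ell q.2) * ((s : ℝ) - ell q.1) ≤ (s + 1) * s :=
          mul_le_mul (by linarith) (by linarith) (by linarith) (by linarith)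
        linarith
    · rw [if_neg he]
      exact hnn
  -- E5
  set P11 : ℝ := (#{q ∈ V1 ×ˢ V1 | ev q.1 = ev q.2 ∧ q.1 ≠ q.2 ∧ ell q.1 = s ∧ ell q.2 = s} : ℝ)
    with hP11
  set P12 : ℝ := (#{q ∈ V1 ×ˢ V1 | ev q.1 = ev q.2 ∧ q.1 ≠ q.2 ∧ ell q.1 = s ∧
    ell q.2 + 1 = s} : ℝ) with hP12
  set NP1 : ℝ := (#{q ∈ V1 ×ˢ V1 | ev q.1 = ev q.2 ∧ q.1 ≠ q.2 ∧
    ell q.1 + ell q.2 + 4 ≤ 2 * s + 2} : ℝ) with hNP1
  set T1 : ℝ := (#{c ∈ V1 | ell c ≤ s - 2} : ℝ) with hT1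
  have hP21 : (#{q ∈ V1 ×ˢ V1 | ev q.1 = ev q.2 ∧ q.1 ≠ q.2 ∧ ell q.1 + 1 = s ∧
      ell q.2 = s} : ℝ) = P12 := by
    rw [hP12]
    have : #{q ∈ V1 ×ˢ V1 | ev q.1 = ev q.2 ∧ q.1 ≠ q.2 ∧ ell q.1 + 1 = s ∧ ell q.2 = s} =
        #{q ∈ V1 ×ˢ V1 | ev q.1 = ev q.2 ∧ q.1 ≠ q.2 ∧ ell q.1 = s ∧ ell q.2 + 1 = s} := by
      refine card_nbij' Prod.swap Prod.swap ?_ ?_ (fun _ _ => rfl) (fun _ _ => rfl)
      · intro q hqm
        rw [mem_coe, mem_filter, mem_product] at hqm ⊢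
        exact ⟨⟨hqm.1.2, hqm.1.1⟩, hqm.2.1.symm, fun h => hqm.2.2.1 h.symm, hqm.2.2.2.2,
          hqm.2.2.2.1⟩
      · intro q hqm
        rw [mem_coe, mem_filter, mem_product] at hqm ⊢
        exact ⟨⟨hqm.1.2, hqm.1.1⟩, hqm.2.1.symm, fun h => hqm.2.2.1 h.symm, hqm.2.2.2.2,
          hqm.2.2.2.1⟩
    exact_mod_cast this
  have hRC' : (#{c ∈ V1 | ell c = s} : ℝ) = s * N := by
    rw [hN]; exact_mod_cast hRC ι s hs1
  have hdiag : ∑ c ∈ V1, ((s : ℝ) + 1 - ell c) * ((s : ℝ) + 1 - ell c) ≤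
      s * N + 2 * (s * n0 - s * N) + (s + 1) ^ 2 * T1 := by
    have h1 : ∑ c ∈ V1, ((s : ℝ) + 1 - ell c) * ((s : ℝ) + 1 - ell c) ≤
        (#{c ∈ V1 | ell c = s} : ℝ) + 2 * (∑ c ∈ V1, ((s : ℝ) + 1 - ell c) -
          (#{c ∈ V1 | ell c = s} : ℝ)) + (s + 1) ^ 2 * T1 := by
      rw [hT1, card_eq_sum, card_eq_sum, ← sum_sub_distrib, mul_sum, mul_sum, ← sum_add_distrib,
        ← sum_add_distrib]
      refine sum_le_sum fun c hc => ?_
      have h0 := hellV1 c hc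
      have h0r : (ell c : ℝ) ≤ s + 1 := by exact_mod_cast h0
      have h0' : (0:ℝ) ≤ ell c := Nat.cast_nonneg _
      by_cases h1 : ell c = s
      · rw [if_pos h1, if_neg (by omega), h1]
        linarith
      · rw [if_neg h1]
        by_cases h2 : ell c ≤ s - 2
        · rw [if_pos h2]
          have h5 : ((s : ℝ) + 1 - ell c) * ((s : ℝ) + 1 - ell c) ≤ (s + 1) * (s + 1) :=
            mul_le_mul (by linarith) (by linarith) (by linarith) (by linarith)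
          linarith
        · rw [if_neg h2]
          have h3 : ell c = s + 1 ∨ ell c = s - 1 := by omega
          rcases h3 with h3 | h3
          · rw [h3]; push_cast; linarith
          · rw [h3, Nat.cast_sub hs1]; push_cast; linarith
    rw [hsumdf, hRC'] at h1
    exact h1
  have hE5' : E5 ≤ s * N + 2 * (s * n0 - s * N) + (s + 1) ^ 2 * T1 + P11 + 4 * P12 +
      (s + 1) ^ 2 * NP1 := by
    have h1 : E5 = ∑ c ∈ V1, ((s : ℝ) + 1 - ell c) * ((Dz s ev (ev c) : ℤ) : ℝ) := by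
      have h2 := sum_unique hI hPC hs1
        (fun c => ((s : ℝ) + 1 - ell c) * ((Dz s ev (ev c) : ℤ) : ℝ))
      rw [← h2, hE5]
      refine sum_congr rfl fun d _ => ?_
      conv_lhs => rw [hDzr (ev d)]
      rw [← hDzr (ev d)]
      conv_lhs => enter [1]; rw [hDzr (ev d)]
      rw [sum_mul]
      refine sum_congr rfl fun c hc => ?_
      rw [(mem_filter.1 hc).2]
    have h2 : E5 = ∑ q ∈ V1 ×ˢ V1, if ev q.2 = ev q.1 then
        ((s : ℝ) + 1 - ell q.1) * ((s : ℝ) + 1 - ell q.2) else 0 := by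
      rw [h1, ← sum_prod_filter V1 V1 (fun c c' => ev c' = ev c)
        (fun c c' => ((s : ℝ) + 1 - ell c) * ((s : ℝ) + 1 - ell c'))]
      refine sum_congr rfl fun c _ => ?_
      rw [← mul_sum, hDzr]
    have h3 : ∑ c ∈ V1, ((s : ℝ) + 1 - ell c) * ((s : ℝ) + 1 - ell c) =
        ∑ q ∈ V1 ×ˢ V1, if q.1 = q.2 then
          ((s : ℝ) + 1 - ell q.1) * ((s : ℝ) + 1 - ell q.1) else 0 := by
      rw [sum_product]
      refine sum_congr rfl fun c hc => ?_
      simp only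
      rw [sum_ite_eq, if_pos hc]
    have h4 : E5 ≤ (∑ c ∈ V1, ((s : ℝ) + 1 - ell c) * ((s : ℝ) + 1 - ell c)) + P11 + 2 * P12 +
        2 * (#{q ∈ V1 ×ˢ V1 | ev q.1 = ev q.2 ∧ q.1 ≠ q.2 ∧ ell q.1 + 1 = s ∧
          ell q.2 = s} : ℝ) + (s + 1) ^ 2 * NP1 := by
      rw [h3, hP11, hP12, hNP1, card_eq_sum, card_eq_sum, card_eq_sum, card_eq_sum, h2, mul_sum,
        mul_sum, mul_sum, ← sum_add_distrib, ← sum_add_distrib, ← sum_add_distrib,
        ← sum_add_distrib]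
      refine sum_le_sum fun q hqm => ?_
      have hq1 := hellV1 q.1 (mem_product.1 hqm).1
      have hq2 := hellV1 q.2 (mem_product.1 hqm).2
      have hq1r : (ell q.1 : ℝ) ≤ s + 1 := by exact_mod_cast hq1
      have hq2r : (ell q.2 : ℝ) ≤ s + 1 := by exact_mod_cast hq2
      have e1 : (0:ℝ) ≤ ell q.1 := Nat.cast_nonneg _
      have e2 : (0:ℝ) ≤ ell q.2 := Nat.cast_nonneg _
      have a2 : 0 ≤ (if ev q.1 = ev q.2 ∧ q.1 ≠ q.2 ∧ ell q.1 = s ∧ ell q.2 = s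
          then (1:ℝ) else 0) := by split_ifs <;> norm_num
      have a3 : 0 ≤ (if ev q.1 = ev q.2 ∧ q.1 ≠ q.2 ∧ ell q.1 = s ∧ ell q.2 + 1 = s
          then (1:ℝ) else 0) := by split_ifs <;> norm_num
      have a5 : 0 ≤ (if ev q.1 = ev q.2 ∧ q.1 ≠ q.2 ∧ ell q.1 + 1 = s ∧ ell q.2 = s
          then (1:ℝ) else 0) := by split_ifs <;> norm_num
      have a4 : 0 ≤ (if ev q.1 = ev q.2 ∧ q.1 ≠ q.2 ∧ ell q.1 + ell q.2 + 4 ≤ 2 * s + 2
          then (1:ℝ) else 0) := by split_ifs <;> norm_num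
      have a4' : 0 ≤ ((s:ℝ) + 1) ^ 2 * (if ev q.1 = ev q.2 ∧ q.1 ≠ q.2 ∧
          ell q.1 + ell q.2 + 4 ≤ 2 * s + 2 then (1:ℝ) else 0) := mul_nonneg (by positivity) a4
      by_cases hqq : q.1 = q.2
      · rw [if_pos hqq, if_pos (by rw [hqq])]
        rw [← hqq]
        rw [← hqq] at a2 a3 a4' a5
        linarith
      · rw [if_neg hqq]
        by_cases he : ev q.2 = ev q.1
        · rw [if_pos he]
          by_cases b1 : ell q.1 = s + 1
          · rw [b1]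
            rw [b1] at a2 a3 a4' a5
            push_cast at a2 a3 a4' a5 ⊢
            have : ((s:ℝ) + 1 - (s + 1)) * (s + 1 - ell q.2) = 0 := by ring
            rw [this]
            linarith
          by_cases b2 : ell q.2 = s + 1
          · rw [b2]
            rw [b2] at a2 a3 a4' a5
            push_cast at a2 a3 a4' a5 ⊢
            have : ((s:ℝ) + 1 - ell q.1) * (s + 1 - (s + 1)) = 0 := by ring
            rw [this]
            linarith
          by_cases b3 : ell q.1 = s ∧ ell q.2 = s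
          · rw [if_pos ⟨he.symm, hqq, b3.1, b3.2⟩]
            have f1 : (ell q.1 : ℝ) = s := by exact_mod_cast b3.1
            have f2 : (ell q.2 : ℝ) = s := by exact_mod_cast b3.2
            rw [f1, f2]
            linarith
          by_cases b4 : ell q.1 = s ∧ ell q.2 + 1 = s
          · rw [if_pos (⟨he.symm, hqq, b4.1, b4.2⟩ :
              ev q.1 = ev q.2 ∧ q.1 ≠ q.2 ∧ ell q.1 = s ∧ ell q.2 + 1 = s)]
            have f1 : (ell q.1 : ℝ) = s := by exact_mod_cast b4.1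
            have f2 : (ell q.2 : ℝ) = s - 1 := by
              have : (ell q.2 : ℝ) + 1 = s := by exact_mod_cast b4.2
              linarith
            rw [f1, f2]
            linarith
          by_cases b5 : ell q.1 + 1 = s ∧ ell q.2 = s
          · rw [if_pos (⟨he.symm, hqq, b5.1, b5.2⟩ :
              ev q.1 = ev q.2 ∧ q.1 ≠ q.2 ∧ ell q.1 + 1 = s ∧ ell q.2 = s)]
            have f1 : (ell q.1 : ℝ) = s - 1 := by
              have : (ell q.1 : ℝ) + 1 = s := by exact_mod_cast b5.1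
              linarith
            have f2 : (ell q.2 : ℝ) = s := by exact_mod_cast b5.2
            rw [f1, f2]
            linarith
          · rw [if_pos (⟨he.symm, hqq, by omega⟩ :
              ev q.1 = ev q.2 ∧ q.1 ≠ q.2 ∧ ell q.1 + ell q.2 + 4 ≤ 2 * s + 2)]
            have f3 : ((s : ℝ) + 1 - ell q.1) * ((s : ℝ) + 1 - ell q.2) ≤ (s + 1) * (s + 1) :=
              mul_le_mul (by linarith) (by linarith) (by linarith) (by linarith)
            linarith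
        · rw [if_neg he]
          linarith
    rw [hP21] at h4
    linarith
  -- numerical end
  obtain ⟨n1, n2⟩ := hC1 ι G ev hPC hm1
  have n3 := hC2 ι G ev hPC hm1
  obtain ⟨n5, n4⟩ := hPQ s ι G ev hPC (by omega)
  have n6 := hC3 ι hm1
  have n8 := hC5 ι hm1
  set Xm : ℝ := (2 * (m : ℝ)) ^ (s - 1) with hXm
  set Ym : ℝ := (m : ℝ) ^ (s - 2) with hYm
  have hmr : (1:ℝ) ≤ m := by exact_mod_cast hm1
  have hYpos : 0 < Ym := by rw [hYm]; positivity
  have hf2 : (1:ℝ) ≤ (s - 2)! := by exact_mod_cast Nat.one_le_iff_ne_zero.2 (Nat.factorial_ne_zero _)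
  have hf2' : (0:ℝ) < (s - 2)! := by linarith
  set x : ℝ := Xm / (s - 2)! with hx
  have hX0 : 0 ≤ Xm := by rw [hXm]; positivity
  have hx0 : 0 ≤ x := by rw [hx]; positivity
  have hXx : Xm = (s - 2)! * x := by rw [hx]; field_simp
  have hfac : ((s - 1)! : ℝ) = (s - 1) * (s - 2)! := by
    have h1 : (s - 1)! = (s - 1) * (s - 2)! := by
      obtain ⟨t, rfl⟩ : ∃ t, s = t + 2 := ⟨s - 2, by omega⟩
      rfl
    rw [h1]
    push_cast
    rw [Nat.cast_sub (by omega)]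
    push_cast
    ring
  have hs10 : (0:ℝ) < s - 1 := by linarith
  have n1' : NP1 ≤ |C1| * Ym :=
    le_trans (show NP1 ≤ C1 * Ym from n1) (mul_le_mul_of_nonneg_right (le_abs_self _) hYpos.le)
  have n2' : NP2 ≤ |C1| * Ym :=
    le_trans (show NP2 ≤ C1 * Ym from n2) (mul_le_mul_of_nonneg_right (le_abs_self _) hYpos.le)
  have n3' : P11 + 2 * P12 ≤ s ^ 2 * N - s ^ 2 / (s - 1) * x + |C2| * Ym := by
    have h1 : P11 + 2 * P12 ≤ s ^ 2 * N - s ^ 2 / (s - 1)! * Xm + C2 * Ym := n3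
    have h2 : (s : ℝ) ^ 2 / (s - 1)! * Xm = s ^ 2 / (s - 1) * x := by
      rw [hfac, hXx]; field_simp
    rw [h2] at h1
    have h3 : C2 * Ym ≤ |C2| * Ym := mul_le_mul_of_nonneg_right (le_abs_self _) hYpos.le
    linarith
  have n4' : P' ≤ s * x := by
    have h1 : ((s - 2)! : ℝ) * P' ≤ s * Xm := by
      rw [hP', hXm]
      exact_mod_cast n4
    rw [hXx] at h1
    have h2 : ((s - 2)! : ℝ) * P' ≤ (s - 2)! * (s * x) := by linarith
    exact le_of_mul_le_mul_left h2 hf2'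
  have n5' : 2 * P12 ≤ s ^ 2 * x := by
    have h1 : 2 * ((s - 2)! : ℝ) * P12 ≤ s ^ 2 * Xm := by
      rw [hP12, hXm]
      exact_mod_cast n5
    rw [hXx] at h1
    have h2 : ((s - 2)! : ℝ) * (2 * P12) ≤ (s - 2)! * (s ^ 2 * x) := by linarith
    exact le_of_mul_le_mul_left h2 hf2'
  have n6' : T1 ≤ |C3| * Ym :=
    le_trans (show T1 ≤ C3 * Ym from n6) (mul_le_mul_of_nonneg_right (le_abs_self _) hYpos.le)
  have n8' : x - |C5| * Ym ≤ W := by
    have h1 : |((s - 2)! : ℝ) * S - Xm| ≤ C5 * Ym := n8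
    have h2 := (abs_le.1 h1).1
    have h3 : C5 * Ym ≤ |C5| * Ym := mul_le_mul_of_nonneg_right (le_abs_self _) hYpos.le
    rw [hXx] at h2
    have h4 : ((s - 2)! : ℝ) * (x - S) ≤ |C5| * Ym := by linarith
    have h5 : x - S ≤ |C5| * Ym := by
      by_contra hcon
      push Not at hcon
      have h6 : 0 ≤ |C5| * Ym := mul_nonneg (abs_nonneg _) hYpos.le
      have h7 : 0 < x - S := lt_of_le_of_lt h6 hcon
      have h8 := mul_le_mul_of_nonneg_right hf2 h7.le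
      linarith
    linarith
  -- final inequality
  have hfinal : (s - 1) * x ≤ K * Ym := by
    have g1 : (s ^ 2 + 2 * s - 2 : ℝ) * (x - |C5| * Ym) ≤ (s ^ 2 + 2 * s - 2) * W :=
      mul_le_mul_of_nonneg_left n8' (by have h := sq_nonneg (s : ℝ); linarith)
    have g2 : (s + 1 : ℝ) ^ 2 * T1 ≤ (s + 1) ^ 2 * (|C3| * Ym) :=
      mul_le_mul_of_nonneg_left n6' (by positivity)
    have g3 : (s + 1 : ℝ) ^ 2 * NP1 ≤ (s + 1) ^ 2 * (|C1| * Ym) :=
      mul_le_mul_of_nonneg_left n1' (by positivity)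
    have g4 : (s : ℝ) * (s + 1) * NP2 ≤ s * (s + 1) * (|C1| * Ym) :=
      mul_le_mul_of_nonneg_left n2' (by positivity)
    have g5 : (s - 1 : ℝ) * W ≤ (s - 1) * E2 := mul_le_mul_of_nonneg_left hE2' hs10.le
    have g6 : (s : ℝ) ^ 2 / (s - 1) * x = (s + 1) * x + 1 / (s - 1) * x := by
      field_simp
      ring
    have g7 : 0 ≤ 1 / ((s : ℝ) - 1) * x := by positivity
    have g8 : n0 = N + W := by rw [hW]; ring
    rw [hE1', g8] at hmain
    rw [g8] at hE5'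
    rw [g6] at n3'
    have g9 : K * Ym = (s + 1) ^ 2 * (|C3| * Ym) + |C2| * Ym + (s + 1) ^ 2 * (|C1| * Ym) +
        2 * (s * (s + 1) * (|C1| * Ym)) + (s ^ 2 + 2 * s - 2) * (|C5| * Ym) := by
      rw [hK]; ring
    rw [g9]
    linarith
  have hXY : m * Ym ≤ Xm := by
    have h1 : s - 1 = (s - 2) + 1 := by omega
    rw [hXm, hYm, h1, mul_pow]
    have h2 : (m : ℝ) * m ^ (s - 2) = m ^ (s - 2 + 1) := by ring
    rw [h2]
    have h3 : (1:ℝ) ≤ 2 ^ (s - 2 + 1) := one_le_pow₀ (by norm_num)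
    exact le_mul_of_one_le_left (by positivity) h3
  have hxY : m * Ym ≤ (s - 2)! * x := by rw [← hXx]; exact hXY
  have h7 : x ≤ |K| * Ym := by
    have h8 : x ≤ (s - 1) * x := le_mul_of_one_le_left hx0 (by linarith)
    have h9 : K * Ym ≤ |K| * Ym := mul_le_mul_of_nonneg_right (le_abs_self _) hYpos.le
    linarith
  have h10 : (m : ℝ) * Ym ≤ (|K| * (s - 2)!) * Ym := by
    calc (m : ℝ) * Ym ≤ (s - 2)! * x := hxY
      _ ≤ (s - 2)! * (|K| * Ym) := mul_le_mul_of_nonneg_left h7 hf2'.le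
      _ = _ := by ring
  have h11 : (m : ℝ) ≤ |K| * (s - 2)! := le_of_mul_le_mul_right h10 hYpos
  have hm3 : (m₀ : ℝ) < m := by exact_mod_cast hm
  linarith

end

end Pool.Agent.H23.GC.J
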