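import Pool.Agent.H15.GC.Base

/-!
# GC module JS: the residue class `s` of `2 m` modulo `s + 1` (helper15)
-/

set_option autoImplicit false

open Finset Pool.Agent.H23.GW Pool.Agent.H23.GC Pool.Agent.H15.GC
open scoped Classical Nat

namespace Pool.Agent.H23.GC.J

noncomputable section

/-- number of vectors of norm `s + 1` in the coset with one defect -/
def rho {ι : Type} [Fintype ι] {G : Type} [AddCommGroup G] (s : ℕ) (ev : (ι → ℤ) →+ G)
    (d : ι → ℤ) : ℝ :=
  ∑ c ∈ Vn ι (s + 1) with ev c = ev d, if ell c = s then (1:ℝ) else 0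

theorem js (hV : T_V) (hI : T_I) (hRC : T_RC) (hNP : T_NP) (hPP : T_PP) (hPQ : T_PQ) : T_JS := by
  intro s hs
  obtain ⟨C1, hC1⟩ := hNP s hs
  obtain ⟨C2, hC2⟩ := hPP s hs
  set K : ℝ := C2 + (s + 1) * C1 + s * C1 with hK
  obtain ⟨m₀, hm₀⟩ := exists_nat_gt (|K| * (s - 1)! )
  refine ⟨m₀ + 1, ?_⟩
  intro ι _ G _ _ ev hPC hm hmod
  set m : ℕ := Fintype.card ι with hmdef
  have hm1 : 1 ≤ m := by omega
  have hs1 : 1 ≤ s := by omega
  set V0 := Vn ι s with hV0
  set V1 := Vn ι (s + 1) with hV1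
  set q := 2 * m / (s + 1) with hq
  have h2m : 2 * m = (s + 1) * q + s := by
    have := Nat.div_add_mod (2 * m) (s + 1)
    rw [hmod] at this
    exact this.symm
  have hellV0 : ∀ d ∈ V0, ell d ≤ s := fun d hd => ell_le hV hd
  have hellV1 : ∀ c ∈ V1, ell c ≤ s + 1 := fun c hc => ell_le hV hc
  -- positivity
  have hpos : ∀ d ∈ V0, 0 ≤ rho s ev d * (((Dz s ev (ev d) : ℤ) : ℝ) - ell d - 1) := by
    intro d hd
    have hr0 : 0 ≤ rho s ev d := sum_nonneg fun c _ => by split_ifs <;> norm_num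
    by_cases hr : rho s ev d = 0
    · rw [hr, zero_mul]
    · refine mul_nonneg hr0 ?_
      obtain ⟨c, hc, hcs⟩ : ∃ c ∈ V1.filter (fun c => ev c = ev d), ell c = s := by
        by_contra hcon
        push Not at hcon
        refine hr (sum_eq_zero fun c hc => ?_)
        rw [if_neg (hcon c hc)]
      have hD1 : 1 ≤ Dz s ev (ev d) := by
        have h1 : ((s : ℤ) + 1 - ell c) ≤ Dz s ev (ev d) := by
          refine single_le_sum (f := fun c => ((s : ℤ) + 1 - ell c)) (fun c' hc' => ?_) hc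
          rw [mem_filter] at hc'
          have := hellV1 c' hc'.1
          have : (ell c' : ℤ) ≤ s + 1 := by exact_mod_cast this
          linarith
        rw [hcs] at h1
        linarith
      have hy := y_eq hI hPC hs1 hd
      have hle : (ell d : ℤ) ≤ s := by exact_mod_cast hellV0 d hd
      have h2mz : (2 : ℤ) * m = (s + 1) * q + s := by exact_mod_cast h2m
      have h3 : ((s : ℤ) + 1) * (nb s ev d - q) = Dz s ev (ev d) - ell d + s := by
        rw [← hmdef] at hy
        linear_combination hy + h2mz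
      have h4 : 0 < ((s : ℤ) + 1) * (nb s ev d - q) := by
        rw [h3]; linarith
      have h5 : 0 < (nb s ev d : ℤ) - q := by
        by_contra hcon
        push Not at hcon
        have : ((s : ℤ) + 1) * (nb s ev d - q) ≤ 0 :=
          mul_nonpos_of_nonneg_of_nonpos (by positivity) hcon
        linarith
      have h6 : ((s : ℤ) + 1) ≤ ((s : ℤ) + 1) * (nb s ev d - q) := by nlinarith
      have h7 : (1 : ℤ) ≤ Dz s ev (ev d) - ell d := by
        rw [h3] at h6; linarith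
      have h8 : (1 : ℝ) ≤ ((Dz s ev (ev d) : ℤ) : ℝ) - ell d := by exact_mod_cast h7
      linarith
  have hsumpos := sum_nonneg hpos
  -- the three sums
  set R1 : ℝ := ∑ d ∈ V0, rho s ev d with hR1
  set R2 : ℝ := ∑ d ∈ V0, rho s ev d * ((Dz s ev (ev d) : ℤ) : ℝ) with hR2
  set R3 : ℝ := ∑ d ∈ V0, rho s ev d * ((s : ℝ) - ell d) with hR3
  have hmain : 0 ≤ R2 + R3 - (s + 1) * R1 := by
    have h1 : ∑ d ∈ V0, rho s ev d * (((Dz s ev (ev d) : ℤ) : ℝ) - ell d - 1) =
        R2 + R3 - (s + 1) * R1 := by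
      rw [hR1, hR2, hR3, mul_sum, ← sum_add_distrib, ← sum_sub_distrib]
      exact sum_congr rfl fun d _ => by ring
    rw [← h1]; exact hsumpos
  -- R1
  set N : ℝ := (#{d ∈ V0 | ell d = s} : ℝ) with hN
  have hR1' : R1 = s * N := by
    have h1 := sum_unique hI hPC hs1 (fun c => if ell c = s then (1:ℝ) else 0)
    have h2 : R1 = ∑ c ∈ V1, if ell c = s then (1:ℝ) else 0 := h1
    rw [h2, ← card_eq_sum]
    have h3 := hRC ι s hs1
    rw [hN]
    exact_mod_cast h3
  -- R2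
  set P11 : ℝ := (#{q ∈ V1 ×ˢ V1 | ev q.1 = ev q.2 ∧ q.1 ≠ q.2 ∧ ell q.1 = s ∧ ell q.2 = s} : ℝ)
    with hP11
  set P12 : ℝ := (#{q ∈ V1 ×ˢ V1 | ev q.1 = ev q.2 ∧ q.1 ≠ q.2 ∧ ell q.1 = s ∧
    ell q.2 + 1 = s} : ℝ) with hP12
  set NP1 : ℝ := (#{q ∈ V1 ×ˢ V1 | ev q.1 = ev q.2 ∧ q.1 ≠ q.2 ∧
    ell q.1 + ell q.2 + 4 ≤ 2 * s + 2} : ℝ) with hNP1
  have hR2' : R2 ≤ R1 + P11 + 2 * P12 + (s + 1) * NP1 := by
    have h1 : R2 = ∑ c ∈ V1, (if ell c = s then (1:ℝ) else 0) * ((Dz s ev (ev c) : ℤ) : ℝ) := by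
      have h2 := sum_unique hI hPC hs1
        (fun c => (if ell c = s then (1:ℝ) else 0) * ((Dz s ev (ev c) : ℤ) : ℝ))
      rw [← h2, hR2]
      refine sum_congr rfl fun d _ => ?_
      unfold rho
      rw [sum_mul]
      refine sum_congr rfl fun c hc => ?_
      rw [(mem_filter.1 hc).2]
    have h2 : R2 = ∑ q ∈ V1 ×ˢ V1, if ev q.2 = ev q.1 then
        (if ell q.1 = s then (1:ℝ) else 0) * ((s : ℝ) + 1 - ell q.2) else 0 := by
      rw [h1, ← sum_prod_filter V1 V1 (fun c c' => ev c' = ev c)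
        (fun c c' => (if ell c = s then (1:ℝ) else 0) * ((s : ℝ) + 1 - ell c'))]
      refine sum_congr rfl fun c _ => ?_
      rw [← mul_sum]
      congr 1
      unfold Dz
      push_cast
      rfl
    have h3 : R1 = ∑ q ∈ V1 ×ˢ V1, if q.1 = q.2 ∧ ell q.1 = s then (1:ℝ) else 0 := by
      have h4 : R1 = ∑ c ∈ V1, if ell c = s then (1:ℝ) else 0 :=
        sum_unique hI hPC hs1 (fun c => if ell c = s then (1:ℝ) else 0)
      rw [h4, sum_product]
      refine sum_congr rfl fun c hc => ?_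
      rw [sum_eq_single c]
      · simp
      · intro c' _ hne
        rw [if_neg]
        exact fun h => hne h.1.symm
      · intro h; exact absurd hc h
    rw [h3, hP11, hP12, hNP1, card_eq_sum, card_eq_sum, card_eq_sum, h2, mul_sum, mul_sum,
      ← sum_add_distrib, ← sum_add_distrib, ← sum_add_distrib]
    refine sum_le_sum fun q hqm => ?_
    have hq1 := hellV1 q.1 (mem_product.1 hqm).1
    have hq2 := hellV1 q.2 (mem_product.1 hqm).2
    have hq2r : (ell q.2 : ℝ) ≤ s + 1 := by exact_mod_cast hq2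
    have hsr : (0:ℝ) ≤ s := Nat.cast_nonneg _
    have hnn : 0 ≤ (if q.1 = q.2 ∧ ell q.1 = s then (1:ℝ) else 0) +
        (if ev q.1 = ev q.2 ∧ q.1 ≠ q.2 ∧ ell q.1 = s ∧ ell q.2 = s then (1:ℝ) else 0) +
        2 * (if ev q.1 = ev q.2 ∧ q.1 ≠ q.2 ∧ ell q.1 = s ∧ ell q.2 + 1 = s then (1:ℝ) else 0) +
        (s + 1) * (if ev q.1 = ev q.2 ∧ q.1 ≠ q.2 ∧ ell q.1 + ell q.2 + 4 ≤ 2 * s + 2
          then (1:ℝ) else 0) := by
      have : ∀ P : Prop, 0 ≤ (if P then (1:ℝ) else 0) := fun P => by split_ifs <;> norm_num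
      have a1 := this (q.1 = q.2 ∧ ell q.1 = s)
      have a2 := this (ev q.1 = ev q.2 ∧ q.1 ≠ q.2 ∧ ell q.1 = s ∧ ell q.2 = s)
      have a3 := this (ev q.1 = ev q.2 ∧ q.1 ≠ q.2 ∧ ell q.1 = s ∧ ell q.2 + 1 = s)
      have a4 := this (ev q.1 = ev q.2 ∧ q.1 ≠ q.2 ∧ ell q.1 + ell q.2 + 4 ≤ 2 * s + 2)
      positivity
    by_cases he : ev q.2 = ev q.1
    · rw [if_pos he]
      by_cases hc : ell q.1 = s
      · rw [if_pos hc, one_mul]
        by_cases hqq : q.1 = q.2
        · have : ell q.2 = s := by rw [← hqq]; exact hc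
          rw [if_pos ⟨hqq, hc⟩, if_neg (fun h => h.2.1 hqq), if_neg (fun h => h.2.1 hqq),
            if_neg (fun h => h.2.1 hqq), this]
          linarith
        · rw [if_neg (fun h => hqq h.1)]
          rcases Nat.lt_or_ge (ell q.2) s with h1 | h1
          · by_cases h2' : ell q.2 + 1 = s
            · rw [if_neg (fun h => by omega), if_pos ⟨he.symm, hqq, hc, h2'⟩,
                if_neg (fun h => by omega)]
              have : (ell q.2 : ℝ) + 1 = s := by exact_mod_cast h2'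
              linarith
            · rw [if_neg (fun h => by omega), if_neg (fun h => h2' h.2.2.2),
                if_pos ⟨he.symm, hqq, by omega⟩]
              have : (0:ℝ) ≤ ell q.2 := Nat.cast_nonneg _
              linarith
          · rcases Nat.eq_or_lt_of_le h1 with h2' | h2'
            · rw [if_pos ⟨he.symm, hqq, hc, h2'.symm⟩, if_neg (fun h => by omega),
                if_neg (fun h => by omega), ← h2']
              linarith
            · have h3' : ell q.2 = s + 1 := by omega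
              refine le_trans (le_of_eq ?_) (le_trans hnn (le_of_eq ?_))
              · rw [h3']; push_cast; ring
              · rw [if_neg (fun h => hqq h.1)]
      · rw [if_neg hc, zero_mul]
        exact hnn
    · rw [if_neg he]
      exact hnn
  -- R3
  set P' : ℝ := (#{q ∈ V0 ×ˢ V1 | ev q.1 = ev q.2 ∧ ell q.1 + 1 = s ∧ ell q.2 = s} : ℝ) with hP'
  set NP2 : ℝ := (#{q ∈ V0 ×ˢ V1 | ev q.1 = ev q.2 ∧ ell q.1 + ell q.2 + 3 ≤ 2 * s + 1} : ℝ)
    with hNP2
  have hR3' : R3 ≤ P' + s * NP2 := by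
    have h2 : R3 = ∑ q ∈ V0 ×ˢ V1, if ev q.2 = ev q.1 then
        (if ell q.2 = s then (1:ℝ) else 0) * ((s : ℝ) - ell q.1) else 0 := by
      rw [← sum_prod_filter V0 V1 (fun d c => ev c = ev d)
        (fun d c => (if ell c = s then (1:ℝ) else 0) * ((s : ℝ) - ell d)), hR3]
      refine sum_congr rfl fun d _ => ?_
      unfold rho
      rw [sum_mul]
    rw [h2, hP', hNP2, card_eq_sum, card_eq_sum, mul_sum, ← sum_add_distrib]
    refine sum_le_sum fun q hqm => ?_
    have hq1 := hellV0 q.1 (mem_product.1 hqm).1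
    have hsr : (0:ℝ) ≤ s := Nat.cast_nonneg _
    have hnn : 0 ≤ (if ev q.1 = ev q.2 ∧ ell q.1 + 1 = s ∧ ell q.2 = s then (1:ℝ) else 0) +
        s * (if ev q.1 = ev q.2 ∧ ell q.1 + ell q.2 + 3 ≤ 2 * s + 1 then (1:ℝ) else 0) := by
      have : ∀ P : Prop, 0 ≤ (if P then (1:ℝ) else 0) := fun P => by split_ifs <;> norm_num
      have a1 := this (ev q.1 = ev q.2 ∧ ell q.1 + 1 = s ∧ ell q.2 = s)
      have a2 := this (ev q.1 = ev q.2 ∧ ell q.1 + ell q.2 + 3 ≤ 2 * s + 1)
      positivity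
    by_cases he : ev q.2 = ev q.1
    · rw [if_pos he]
      by_cases hc : ell q.2 = s
      · rw [if_pos hc, one_mul]
        by_cases h1 : ell q.1 = s
        · rw [h1, sub_self]
          rw [h1] at hnn
          exact hnn
        · by_cases h2' : ell q.1 + 1 = s
          · rw [if_pos ⟨he.symm, h2', hc⟩, if_neg (fun h => by omega)]
            have : (ell q.1 : ℝ) + 1 = s := by exact_mod_cast h2'
            linarith
          · rw [if_neg (fun h => h2' h.2.1), if_pos ⟨he.symm, by omega⟩]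
            have : (0:ℝ) ≤ ell q.1 := Nat.cast_nonneg _
            linarith
      · rw [if_neg hc, zero_mul]
        exact hnn
    · rw [if_neg he]
      exact hnn
  -- numerical end
  obtain ⟨n1, n2⟩ := hC1 ι G ev hPC hm1
  have n3 := hC2 ι G ev hPC hm1
  have n4 := (hPQ s ι G ev hPC (by omega)).2
  set Xm : ℝ := (2 * (m : ℝ)) ^ (s - 1) with hXm
  set Ym : ℝ := (m : ℝ) ^ (s - 2) with hYm
  have n1' : NP1 ≤ C1 * Ym := n1
  have n2' : NP2 ≤ C1 * Ym := n2
  have n3' : P11 + 2 * P12 ≤ s ^ 2 * N - s ^ 2 / (s - 1)! * Xm + C2 * Ym := n3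
  have n4' : ((s - 2)! : ℝ) * P' ≤ s * Xm := by
    rw [hP', hXm]
    exact_mod_cast n4
  have hfac : ((s - 1)! : ℝ) = (s - 1) * (s - 2)! := by
    have h1 : (s - 1)! = (s - 1) * (s - 2)! := by
      obtain ⟨t, rfl⟩ : ∃ t, s = t + 2 := ⟨s - 2, by omega⟩
      rfl
    rw [h1]
    push_cast
    rw [Nat.cast_sub (by omega)]
    push_cast
    ring
  have hf2 : (0:ℝ) < (s - 2)! := by exact_mod_cast Nat.factorial_pos _
  have hf1 : (0:ℝ) < (s - 1)! := by exact_mod_cast Nat.factorial_pos _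
  have hsr : (6:ℝ) ≤ s := by exact_mod_cast hs
  have hP'' : P' ≤ s * (s - 1) / (s - 1)! * Xm := by
    rw [hfac]
    have h1 : (s : ℝ) * (s - 1) / ((s - 1) * (s - 2)!) = s / (s - 2)! := by
      have : (s : ℝ) - 1 ≠ 0 := by linarith
      field_simp
    rw [h1, div_mul_eq_mul_div, le_div_iff₀ hf2]
    linarith
  -- contradiction
  have hfinal : s / (s - 1)! * Xm ≤ K * Ym := by
    have h1 : R2 + R3 - (s + 1) * R1 ≤ R1 + P11 + 2 * P12 + (s + 1) * NP1 + (P' + s * NP2) -
        (s + 1) * R1 := by linarith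
    have h2 : 0 ≤ P11 + 2 * P12 + (s + 1) * NP1 + P' + s * NP2 - s * (s * N) := by
      rw [hR1'] at h1 hmain
      linarith
    have h3 : (s + 1 : ℝ) * NP1 ≤ (s + 1) * (C1 * Ym) :=
      mul_le_mul_of_nonneg_left n1' (by positivity)
    have h4 : (s : ℝ) * NP2 ≤ s * (C1 * Ym) := mul_le_mul_of_nonneg_left n2' (by positivity)
    have h5 : s * (s - 1) / (s - 1)! * Xm = (s : ℝ) ^ 2 / (s - 1)! * Xm - s / (s - 1)! * Xm := by
      ring
    have h6 : K * Ym = C2 * Ym + (s + 1) * (C1 * Ym) + s * (C1 * Ym) := by rw [hK]; ring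
    rw [h6]
    linarith
  have hmr : (1:ℝ) ≤ m := by exact_mod_cast hm1
  have hYpos : 0 < Ym := by rw [hYm]; positivity
  have hXY : m * Ym ≤ Xm := by
    have h1 : s - 1 = (s - 2) + 1 := by omega
    rw [hXm, hYm, h1, mul_pow]
    have h2 : (m : ℝ) * m ^ (s - 2) = m ^ (s - 2 + 1) := by ring
    rw [h2]
    have h3 : (1:ℝ) ≤ 2 ^ (s - 2 + 1) := one_le_pow₀ (by norm_num)
    exact le_mul_of_one_le_left (by positivity) h3
  have h7 : s / (s - 1)! * (m * Ym) ≤ |K| * Ym := by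
    calc (s : ℝ) / (s - 1)! * (m * Ym) ≤ s / (s - 1)! * Xm :=
          mul_le_mul_of_nonneg_left hXY (by positivity)
      _ ≤ K * Ym := hfinal
      _ ≤ |K| * Ym := mul_le_mul_of_nonneg_right (le_abs_self _) hYpos.le
  have h8 : (s : ℝ) / (s - 1)! * m ≤ |K| := by
    have h9 : ((s : ℝ) / (s - 1)! * m) * Ym ≤ |K| * Ym := by
      calc _ = (s : ℝ) / (s - 1)! * (m * Ym) := by ring
        _ ≤ _ := h7
    exact le_of_mul_le_mul_right h9 hYpos
  rw [div_mul_eq_mul_div, div_le_iff₀ hf1] at h8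
  have hm3 : (m₀ : ℝ) < m := by exact_mod_cast hm
  have h12 := le_mul_of_one_le_left (show (0:ℝ) ≤ m by linarith) (show (1:ℝ) ≤ s by linarith)
  linarith

end

end Pool.Agent.H23.GC.J
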