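import Pool.Agent.H23.GC.Targets

/-!
# Perfect spanning sets of large size: the classes `2 m ≡ 1` and `2 m ≡ s` modulo `s + 1`, `s ≥ 6`
-/

set_option autoImplicit false

open Finset Pool.Agent.H23.GW
open scoped Classical Nat

namespace Pool.Agent.H23.GC

noncomputable section

/-- (NV) kernel vectors with many defects. -/
def T_NV : Prop :=
  ∀ s : ℕ, 6 ≤ s → ∃ C : ℝ, ∀ (ι : Type) [Fintype ι] (G : Type) [AddCommGroup G]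
    (ev : (ι → ℤ) →+ G), PC s ev → 1 ≤ Fintype.card ι →
    (#{v ∈ Vn ι (2 * s + 2) | ev v = 0 ∧ ell v + 4 ≤ 2 * s + 2} : ℝ) ≤
      C * (Fintype.card ι : ℝ) ^ (s - 2) ∧
    (#{v ∈ Vn ι (2 * s + 1) | ev v = 0 ∧ ell v + 3 ≤ 2 * s + 1} : ℝ) ≤
      C * (Fintype.card ι : ℝ) ^ (s - 2)

/-- (NP) pairs with many defects. -/
def T_NP : Prop :=
  ∀ s : ℕ, 6 ≤ s → ∃ C : ℝ, ∀ (ι : Type) [Fintype ι] (G : Type) [AddCommGroup G]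
    (ev : (ι → ℤ) →+ G), PC s ev → 1 ≤ Fintype.card ι →
    (#{q ∈ Vn ι (s + 1) ×ˢ Vn ι (s + 1) | ev q.1 = ev q.2 ∧ q.1 ≠ q.2 ∧
      ell q.1 + ell q.2 + 4 ≤ 2 * s + 2} : ℝ) ≤ C * (Fintype.card ι : ℝ) ^ (s - 2) ∧
    (#{q ∈ Vn ι s ×ˢ Vn ι (s + 1) | ev q.1 = ev q.2 ∧
      ell q.1 + ell q.2 + 3 ≤ 2 * s + 1} : ℝ) ≤ C * (Fintype.card ι : ℝ) ^ (s - 2)

/-- (NW) words of kernel vectors with many defects. -/
def T_NW : Prop :=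
  ∀ s : ℕ, 6 ≤ s → ∃ C : ℝ, ∀ (ι : Type) [Fintype ι] (G : Type) [AddCommGroup G]
    (ev : (ι → ℤ) →+ G), PC s ev → 1 ≤ Fintype.card ι → ∀ (κ : Type) [Fintype κ],
    (Fintype.card κ = 2 * s + 2 → (#{z ∈ Zr ev κ | ell (vs z) + 4 ≤ 2 * s + 2} : ℝ) ≤
      C * (Fintype.card ι : ℝ) ^ (s - 2)) ∧
    (Fintype.card κ = 2 * s + 1 → (#{z ∈ Zr ev κ | ell (vs z) + 3 ≤ 2 * s + 1} : ℝ) ≤
      C * (Fintype.card ι : ℝ) ^ (s - 2))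

/-- (W2) more word counts. -/
def T_W2 : Prop :=
  ∀ (ι : Type) [Fintype ι] (κ : Type) [Fintype κ] (v : ι → ℤ), nrm v = Fintype.card κ →
    (ell v + 1 = Fintype.card κ →
      2 * #{w : κ → ι × Bool | vs w = v} = (Fintype.card κ)!) ∧
    (∀ i j : κ, i ≠ j →
      (Fintype.card κ).choose 2 * #{w : κ → ι × Bool | vs w = v ∧ w i = w j} +
        #{w : κ → ι × Bool | vs w = v} ≤ (Fintype.card κ)!) ∧
    (∀ i j : κ, i ≠ j → ell v + 2 = Fintype.card κ →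
      #{w : κ → ι × Bool | vs w = v ∧ w i = w j} = (Fintype.card κ - 2)!) ∧
    (∀ i j k l : κ, [i, j, k, l].Nodup → ell v + 2 = Fintype.card κ → (∀ x, (v x).natAbs ≤ 2) →
      #{w : κ → ι × Bool | vs w = v ∧ w i = w j ∧ w k = w l} = 2 * (Fintype.card κ - 4)!) ∧
    (∀ i j k : κ, [i, j, k].Nodup → ell v + 2 = Fintype.card κ → (∃ x, 3 ≤ (v x).natAbs) →
      #{w : κ → ι × Bool | vs w = v ∧ w i = w j ∧ w j = w k} = (Fintype.card κ - 3)!)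

/-- (RC) vectors of norm `s + 1` with one defect. -/
def T_RC : Prop :=
  ∀ (ι : Type) [Fintype ι] (s : ℕ), 1 ≤ s →
    #{c ∈ Vn ι (s + 1) | ell c = s} = s * #{d ∈ Vn ι s | ell d = s}

/-- (R) reduced words with two coincidences. -/
def T_R : Prop :=
  ∀ s : ℕ, 3 ≤ s → ∃ C : ℝ, ∀ (ι : Type) [Fintype ι], 1 ≤ Fintype.card ι →
    ∀ (κ : Type) [Fintype κ], Fintype.card κ = s + 2 → ∀ i j k l : κ, [i, j, k, l].Nodup →
    (#{w : κ → ι × Bool | nrm (vs w) = Fintype.card κ ∧ w i = w j ∧ w k = w l} : ℝ) ≤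
      s ! * #{d ∈ Vn ι s | ell d = s} + (s ! / 2) * #{d ∈ Vn ι s | ell d + 1 = s} +
        C * (Fintype.card ι : ℝ) ^ (s - 2)

/-- (ZL) lower bounds for words with coincidences. -/
def T_ZL : Prop :=
  ∀ s : ℕ, 6 ≤ s → ∃ C : ℝ, ∀ (ι : Type) [Fintype ι] (G : Type) [AddCommGroup G]
    (ev : (ι → ℤ) →+ G), PC s ev → 1 ≤ Fintype.card ι → ∀ (κ : Type) [Fintype κ],
    (Fintype.card κ = 2 * s + 1 → ∀ i j k l : κ, [i, j, k, l].Nodup →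
      s ! * (2 * Fintype.card ι : ℝ) ^ (s - 1) - C * (Fintype.card ι : ℝ) ^ (s - 2) ≤
        #{z ∈ Zr ev κ | z i = z j ∧ z k = z l}) ∧
    (Fintype.card κ = 2 * s + 2 → ∀ i j k l p q : κ, [i, j, k, l, p, q].Nodup →
      s ! * (2 * Fintype.card ι : ℝ) ^ (s - 1) - C * (Fintype.card ι : ℝ) ^ (s - 2) ≤
        #{z ∈ Zr ev κ | z i = z j ∧ z k = z l ∧ z p = z q})

/-- (ZU) upper bounds for words with coincidences, without error term. -/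
def T_ZU : Prop :=
  ∀ (s : ℕ) (ι : Type) [Fintype ι] (G : Type) [AddCommGroup G] (ev : (ι → ℤ) →+ G), PC s ev →
    4 ≤ s → ∀ (κ : Type) [Fintype κ],
    (Fintype.card κ = 2 * s + 1 → ∀ i j k l : κ, [i, j, k, l].Nodup →
      #{z ∈ Zr ev κ | z i = z j ∧ z k = z l} ≤ s ! * (2 * Fintype.card ι) ^ (s - 1)) ∧
    (Fintype.card κ = 2 * s + 2 → ∀ i j k l p q : κ, [i, j, k, l, p, q].Nodup →
      #{z ∈ Zr ev κ | z i = z j ∧ z k = z l ∧ z p = z q} ≤ s ! * (2 * Fintype.card ι) ^ (s - 1) ∧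
      #{z ∈ Zr ev κ | z i = z j ∧ z j = z k ∧ z p = z q} ≤ s ! * (2 * Fintype.card ι) ^ (s - 1))

/-- (Z2) the second order of the number of words with two coincidences. -/
def T_Z2 : Prop :=
  ∀ s : ℕ, 6 ≤ s → ∃ C : ℝ, ∀ (ι : Type) [Fintype ι] (G : Type) [AddCommGroup G]
    (ev : (ι → ℤ) →+ G), PC s ev → 1 ≤ Fintype.card ι → ∀ (κ : Type) [Fintype κ],
    Fintype.card κ = 2 * s + 2 → ∀ i j k l : κ, [i, j, k, l].Nodup →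
    (#{z ∈ Zr ev κ | z i = z j ∧ z k = z l} : ℝ) ≤
      s ! * (s ! * #{d ∈ Vn ι s | ell d = s} - s * (2 * Fintype.card ι : ℝ) ^ (s - 1)) +
        C * (Fintype.card ι : ℝ) ^ (s - 2)

/-- (PP) pairs with defects `(1, 1)`, `(1, 2)`, `(2, 1)`. -/
def T_PP : Prop :=
  ∀ s : ℕ, 6 ≤ s → ∃ C : ℝ, ∀ (ι : Type) [Fintype ι] (G : Type) [AddCommGroup G]
    (ev : (ι → ℤ) →+ G), PC s ev → 1 ≤ Fintype.card ι →
    ((#{q ∈ Vn ι (s + 1) ×ˢ Vn ι (s + 1) | ev q.1 = ev q.2 ∧ q.1 ≠ q.2 ∧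
        ell q.1 = s ∧ ell q.2 = s} : ℝ) +
      2 * #{q ∈ Vn ι (s + 1) ×ˢ Vn ι (s + 1) | ev q.1 = ev q.2 ∧ q.1 ≠ q.2 ∧
        ell q.1 = s ∧ ell q.2 + 1 = s} ≤
      s ^ 2 * #{d ∈ Vn ι s | ell d = s} -
        s ^ 2 / (s - 1)! * (2 * Fintype.card ι : ℝ) ^ (s - 1) +
        C * (Fintype.card ι : ℝ) ^ (s - 2))

/-- (PQ) upper bounds for pairs with defects `(1, 2)` and for `(d, c)` with defects `(1, 1)`. -/
def T_PQ : Prop :=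
  ∀ (s : ℕ) (ι : Type) [Fintype ι] (G : Type) [AddCommGroup G] (ev : (ι → ℤ) →+ G), PC s ev →
    4 ≤ s →
    2 * (s - 2)! * #{q ∈ Vn ι (s + 1) ×ˢ Vn ι (s + 1) | ev q.1 = ev q.2 ∧ q.1 ≠ q.2 ∧
        ell q.1 = s ∧ ell q.2 + 1 = s} ≤ s ^ 2 * (2 * Fintype.card ι) ^ (s - 1) ∧
    (s - 2)! * #{q ∈ Vn ι s ×ˢ Vn ι (s + 1) | ev q.1 = ev q.2 ∧ ell q.1 + 1 = s ∧
        ell q.2 = s} ≤ s * (2 * Fintype.card ι) ^ (s - 1)

/-- (J1) the residue class `1` of `2 m` modulo `s + 1`. -/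
def T_J1 : Prop :=
  ∀ s : ℕ, 6 ≤ s → ∃ m₀ : ℕ, ∀ (ι : Type) [Fintype ι] (G : Type) [AddCommGroup G] [Fintype G]
    (ev : (ι → ℤ) →+ G), PC s ev → m₀ ≤ Fintype.card ι → (2 * Fintype.card ι) % (s + 1) ≠ 1

/-- (JS) the residue class `s` of `2 m` modulo `s + 1`. -/
def T_JS : Prop :=
  ∀ s : ℕ, 6 ≤ s → ∃ m₀ : ℕ, ∀ (ι : Type) [Fintype ι] (G : Type) [AddCommGroup G] [Fintype G]
    (ev : (ι → ℤ) →+ G), PC s ev → m₀ ≤ Fintype.card ι → (2 * Fintype.card ι) % (s + 1) ≠ s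

end

end Pool.Agent.H23.GC
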