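import Pool.Agent.H23.GC.Final
import Pool.Agent.H34.GC.A
import Pool.Agent.H2.GC.AL
import Pool.Agent.H34.GC.B
import Pool.Agent.H34.GC.C
import Pool.Agent.H24.GC.E5
import Pool.Agent.H2.GC.IF
import Pool.Agent.H80.GC.G5
import Pool.Agent.H23.GC.J1
import Pool.Agent.H23.GC.JS
import Pool.Agent.H87.GC.K1
import Pool.Agent.H59.GC.K4
import Pool.Agent.H2.GC.Base
import Pool.Agent.H80.GC.L4
import Pool.Agent.H2.GC.N5
import Pool.Agent.H19.GC.NP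
import Pool.Agent.H19.GC.NV
import Pool.Agent.H2.GC.NX
import Pool.Agent.H34.GC.P
import Pool.Agent.H4.GC.PP
import Pool.Agent.H90.GC.R
import Pool.Agent.H90.GC.RC
import Pool.Agent.H80.GC.S
import Pool.Agent.H24.GC.SY
import Pool.Agent.H80.GC.U4
import Pool.Agent.H59.GC.W
import Pool.Agent.H90.GC.W2
import Pool.Agent.H67.GC.X
import Pool.Agent.H80.GC.Y
import Pool.Agent.H59.GC.Z
import Pool.Agent.H15.GC.Z2
import Pool.Agent.H59.GC.Z4
import Pool.Agent.H19.GC.ZL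
import Pool.Agent.H59.GC.ZU

/-!
# No perfect spanning sets of large size: final theorem
-/

set_option autoImplicit false

open Finset Pool.Agent.H23.GW
open scoped Classical Nat

namespace Pool.Agent.H23.GC

theorem tV : T_V := Pool.Agent.H2.GC.v
theorem tL : T_L := Pool.Agent.H2.GC.l
theorem tI : T_I := Pool.Agent.H2.GC.i
theorem tF : T_F := Pool.Agent.H2.GC.f
theorem tC : T_C := Pool.Agent.H34.GC.T_C_holds
theorem tW : T_W := Pool.Agent.H59.GC.w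
theorem tZ : T_Z := Pool.Agent.H59.GC.z
theorem tX : T_X := Pool.Agent.H67.GC.x tL tW tZ tC tV
theorem tS : T_S := Pool.Agent.H80.GC.modS tV tL tW tZ tX tC
theorem tY : T_Y := Pool.Agent.H80.GC.modY tV tI tF tC tX tS
theorem tA : T_A := Pool.Agent.H34.GC.T_A_holds tY tC
theorem tB : T_B := Pool.Agent.H34.GC.T_B_holds tY tI tX tC
theorem tP : T_P := Pool.Agent.H34.GC.T_P_holds
theorem tNV : T_NV := Pool.Agent.H19.GC.nv tC
theorem tNP : T_NP := Pool.Agent.H19.GC.np tNV tL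
theorem tNW : T_NW := Pool.Agent.H19.GC.nw tNV tW
theorem tW2 : T_W2 := Pool.Agent.H90.GC.w2
theorem tRC : T_RC := Pool.Agent.H90.GC.rc
theorem tR : T_R := Pool.Agent.H90.GC.r
theorem tZU : T_ZU := Pool.Agent.H59.GC.zu
theorem tZL : T_ZL := Pool.Agent.H19.GC.zl tNW
theorem tZ2 : T_Z2 := Pool.Agent.H15.GC.z2 tL tW tW2 tR tZL tC
theorem tPP : T_PP := Pool.Agent.H4.GC.pp tL tW tW2 tZ2
theorem tPQ : T_PQ := Pool.Agent.H4.GC.pq tL tW tW2 tZU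
theorem tJ1 : T_J1 := Pool.Agent.H23.GC.J.j1 tV tI tF tC tRC tNP tPP tPQ
theorem tJS : T_JS := Pool.Agent.H23.GC.J.js tV tI tRC tNP tPP tPQ
theorem tSY : T_SY := Pool.Agent.H24.GC.sy tV tW
theorem tNX : T_NX := Pool.Agent.H2.GC.nx tC
theorem tN5 : T_N5 := Pool.Agent.H2.GC.n5 tNX tL
theorem tW3 : T_W3 := Pool.Agent.H2.GC.w3
theorem tE5 : T_E5 := Pool.Agent.H24.GC.e5 tV tL tSY tW tW2 tW3
theorem tE4 : T_E4 := Pool.Agent.H24.GC.e4 tV tL tSY tW tW2 tW3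
theorem tG5 : T_G5 := Pool.Agent.H80.GC4.g5 tSY tN5 tW2
theorem tU4 : T_U4 := Pool.Agent.H80.GC4.u4 tSY tW2 tZU
theorem tL4 : T_L4 := Pool.Agent.H80.GC4.l4 tSY tW2 tNX
theorem tZ4 : T_Z4 := Pool.Agent.H59.GC.Z4.z4 tSY tR tW tW2 tL4 tC
theorem tAL : T_AL := Pool.Agent.H2.GC.al_proof tW tNX
theorem tK1 : T_K1 := Pool.Agent.H87.GC.k1 tN5 tE5 tE4 tU4 tZ4 tAL tRC tC tI tF tV
theorem tK4 : T_K4 := Pool.Agent.H59.GC.K4.k4 tN5 tE5 tE4 tU4 tZ4 tG5 tAL tRC tI tV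

theorem large_sizes : ∀ s : ℕ, 3 ≤ s → ∃ m₀ : ℕ, ∀ (G : Type) [AddCommGroup G] [Finite G]
    (A : Finset G), m₀ ≤ #A → ¬ PerfectSpanning A s :=
  assembly tP tA tB tJ1 tJS tK1 tK4

end Pool.Agent.H23.GC
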