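import Pool.Agent.H23.GW.Defs

/-!
# Perfect spanning sets of large size: targets of the modules

`s` is the radius, `m = card ι` the size. All vectors are functions `ι → ℤ`.
-/

set_option autoImplicit false

open Finset Pool.Agent.H23.GW
open scoped Classical Nat

namespace Pool.Agent.H23.GC

noncomputable section

variable {ι : Type} [Fintype ι]

/-- the norm `∑ |c i|` -/
def nrm (c : ι → ℤ) : ℕ := ∑ i, (c i).natAbs

/-- number of nonzero coordinates -/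
def ell (c : ι → ℤ) : ℕ := #{i | c i ≠ 0}

/-- the vectors of norm `n` -/
def Vn (ι : Type) [Fintype ι] (n : ℕ) : Finset (ι → ℤ) :=
  (Fintype.piFinset fun _ => Icc (-(n : ℤ)) n).filter fun c => nrm c = n

/-- every element of `G` has exactly one preimage of norm at most `s` -/
def PC {G : Type} [AddCommGroup G] (s : ℕ) (ev : (ι → ℤ) →+ G) : Prop :=
  ∀ g : G, ∃! c : ι → ℤ, nrm c ≤ s ∧ ev c = g

/-- the unit vector of a direction -/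
def dv (x : ι × Bool) : ι → ℤ := Pi.single x.1 (if x.2 then 1 else -1)

/-- the vector of a word -/
def vs {κ : Type} [Fintype κ] (w : κ → ι × Bool) : ι → ℤ := ∑ k, dv (w k)

/-- reduced words in the kernel of `ev` -/
def Zr {G : Type} [AddCommGroup G] (ev : (ι → ℤ) →+ G) (κ : Type) [Fintype κ] :
    Finset (κ → ι × Bool) :=
  {z | nrm (vs z) = Fintype.card κ ∧ ev (vs z) = 0}

/-- number of vectors of norm `s + 1` in the coset of `d` -/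
def nb {G : Type} [AddCommGroup G] (s : ℕ) (ev : (ι → ℤ) →+ G) (d : ι → ℤ) : ℕ :=
  #{c ∈ Vn ι (s + 1) | ev c = ev d}

/-- (V) membership. -/
def T_V : Prop :=
  ∀ (ι : Type) [Fintype ι] (n : ℕ) (c : ι → ℤ), c ∈ Vn ι n ↔ nrm c = n

/-- (L) short vectors of the kernel vanish, and the parity of the norm of a difference. -/
def T_L : Prop :=
  ∀ (ι : Type) [Fintype ι] (G : Type) [AddCommGroup G] (s : ℕ) (ev : (ι → ℤ) →+ G), PC s ev →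
    (∀ v : ι → ℤ, ev v = 0 → nrm v ≤ 2 * s → v = 0) ∧
    ∀ c d : ι → ℤ, c ≠ d → ev c = ev d → 2 * s + 1 ≤ nrm (c - d) ∧
      nrm (c - d) ≤ nrm c + nrm d ∧ Even (nrm (c - d) + nrm c + nrm d)

/-- (I) the vectors of norm `s + 1` of a coset partition the directions. -/
def T_I : Prop :=
  ∀ (ι : Type) [Fintype ι] (G : Type) [AddCommGroup G] (s : ℕ) (ev : (ι → ℤ) →+ G), PC s ev →
    1 ≤ s →
    (∀ d ∈ Vn ι s, (∑ c ∈ Vn ι (s + 1) with ev c = ev d, ell c) + ell d = 2 * Fintype.card ι) ∧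
    ∀ c ∈ Vn ι (s + 1), ∃! d : ι → ℤ, d ∈ Vn ι s ∧ ev d = ev c

/-- (F) a formal identity. -/
def T_F : Prop :=
  ∀ (ι : Type) [Fintype ι] (s : ℕ),
    (∑ c ∈ Vn ι (s + 1), ell c) + s * #(Vn ι s) = (s + 1) * #(Vn ι (s + 1))

/-- (C) counting vectors. -/
def T_C : Prop :=
  (∀ n : ℕ, 1 ≤ n → ∃ C : ℝ, ∀ (ι : Type) [Fintype ι], 1 ≤ Fintype.card ι →
    |(n ! : ℝ) * #{c ∈ Vn ι n | ell c = n} - (2 * Fintype.card ι) ^ n| ≤
      C * (Fintype.card ι : ℝ) ^ (n - 1)) ∧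
  (∀ n : ℕ, 2 ≤ n → ∃ C : ℝ, ∀ (ι : Type) [Fintype ι], 1 ≤ Fintype.card ι →
    |((n - 2)! : ℝ) * #{c ∈ Vn ι n | ell c = n - 1} - (2 * Fintype.card ι) ^ (n - 1)| ≤
      C * (Fintype.card ι : ℝ) ^ (n - 2)) ∧
  ∀ n k : ℕ, ∃ C : ℝ, ∀ (ι : Type) [Fintype ι], 1 ≤ Fintype.card ι →
    (#{c ∈ Vn ι n | ell c ≤ k} : ℝ) ≤ C * (Fintype.card ι : ℝ) ^ k

/-- (W) words of a vector. -/
def T_W : Prop :=
  ∀ (ι : Type) [Fintype ι] (κ : Type) [Fintype κ],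
    (∀ w : κ → ι × Bool, nrm (vs w) ≤ Fintype.card κ) ∧
    ∀ v : ι → ℤ, nrm v = Fintype.card κ →
    (∃ w : κ → ι × Bool, vs w = v) ∧
    #{w : κ → ι × Bool | vs w = v} ≤ (Fintype.card κ)! ∧
    (ell v = Fintype.card κ → #{w : κ → ι × Bool | vs w = v} = (Fintype.card κ)!) ∧
    (∀ i j : κ, i ≠ j → ell v + 1 = Fintype.card κ →
      #{w : κ → ι × Bool | vs w = v ∧ w i = w j} = (Fintype.card κ - 2)!) ∧
    (∀ i j : κ, i ≠ j → ell v = Fintype.card κ → ∀ w : κ → ι × Bool, vs w = v → w i ≠ w j) ∧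
    (∀ i j : κ, i ≠ j → ell v + 1 ≤ Fintype.card κ → ∃ w : κ → ι × Bool, vs w = v ∧ w i = w j) ∧
    ∀ i j k l : κ, [i, j, k, l].Nodup → ell v + 2 ≤ Fintype.card κ →
      ∃ w : κ → ι × Bool, vs w = v ∧ ((w i = w j ∧ w k = w l) ∨ (w i = w j ∧ w j = w k))

/-- (Z) reduced words in the kernel with coincidences. -/
def T_Z : Prop :=
  ∀ s : ℕ, 3 ≤ s → ∃ C : ℝ, ∀ (ι : Type) [Fintype ι] (G : Type) [AddCommGroup G] [Fintype G]
    (ev : (ι → ℤ) →+ G), PC s ev → Odd (Fintype.card G) → 1 ≤ Fintype.card ι →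
    ∀ (κ : Type) [Fintype κ],
    (Fintype.card κ = 2 * s + 2 → ∀ i j k l p q : κ, [i, j, k, l, p, q].Nodup →
      |(#{z ∈ Zr ev κ | z i = z j ∧ z k = z l} : ℝ) - s ! * (2 * Fintype.card ι) ^ s| ≤
        C * (Fintype.card ι : ℝ) ^ (s - 1) ∧
      (#{z ∈ Zr ev κ | z i = z j ∧ z k = z l ∧ z p = z q} : ℝ) ≤
        C * (Fintype.card ι : ℝ) ^ (s - 1) ∧
      (#{z ∈ Zr ev κ | z i = z j ∧ z j = z k ∧ z p = z q} : ℝ) ≤
        C * (Fintype.card ι : ℝ) ^ (s - 1)) ∧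
    (Fintype.card κ = 2 * s + 1 → ∀ i j k l : κ, [i, j, k, l].Nodup →
      (#{z ∈ Zr ev κ | z i = z j ∧ z k = z l} : ℝ) ≤ C * (Fintype.card ι : ℝ) ^ (s - 1))

/-- (X) pairs with many defects. -/
def T_X : Prop :=
  ∀ s : ℕ, 3 ≤ s → ∃ C : ℝ, ∀ (ι : Type) [Fintype ι] (G : Type) [AddCommGroup G] [Fintype G]
    (ev : (ι → ℤ) →+ G), PC s ev → Odd (Fintype.card G) → 1 ≤ Fintype.card ι →
    (#{q ∈ Vn ι s ×ˢ Vn ι (s + 1) | ev q.1 = ev q.2 ∧ ell q.1 < s ∧ ell q.2 ≤ s} : ℝ) ≤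
      C * (Fintype.card ι : ℝ) ^ (s - 1) ∧
    (#{q ∈ Vn ι (s + 1) ×ˢ Vn ι (s + 1) | ev q.1 = ev q.2 ∧ ell q.1 ≤ s ∧ ell q.2 < s} : ℝ) ≤
      C * (Fintype.card ι : ℝ) ^ (s - 1)

/-- (S) pairs with one defect each. -/
def T_S : Prop :=
  ∀ s : ℕ, 3 ≤ s → ∃ C : ℝ, ∀ (ι : Type) [Fintype ι] (G : Type) [AddCommGroup G] [Fintype G]
    (ev : (ι → ℤ) →+ G), PC s ev → Odd (Fintype.card G) → 1 ≤ Fintype.card ι →
    |((s - 1)! : ℝ) *
        #{q ∈ Vn ι (s + 1) ×ˢ Vn ι (s + 1) | ev q.1 = ev q.2 ∧ ell q.1 = s ∧ ell q.2 = s} -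
      (s + 1) * (2 * Fintype.card ι) ^ s| ≤ C * (Fintype.card ι : ℝ) ^ (s - 1)

/-- (Y) first and second moments of `y d = (s + 1) nb d - 2 m` over the vectors `d` of norm `s`. -/
def T_Y : Prop :=
  ∀ s : ℕ, 3 ≤ s → ∃ C : ℝ, ∀ (ι : Type) [Fintype ι] (G : Type) [AddCommGroup G] [Fintype G]
    (ev : (ι → ℤ) →+ G), PC s ev → Odd (Fintype.card G) → 1 ≤ Fintype.card ι →
    (∑ d ∈ Vn ι s, (((s : ℤ) + 1) * nb s ev d - 2 * Fintype.card ι)) =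
      ∑ d ∈ Vn ι s, ((s : ℤ) - ell d) ∧
    |((s - 1)! : ℝ) * ∑ d ∈ Vn ι s, (((s : ℝ) + 1) * nb s ev d - 2 * Fintype.card ι) ^ 2 -
      (2 * Fintype.card ι) ^ s| ≤ C * (Fintype.card ι : ℝ) ^ (s - 1)

/-- (A) the residue classes of `2 m` modulo `s + 1` other than `0, 1, s`. -/
def T_A : Prop :=
  ∀ s : ℕ, 3 ≤ s → ∃ m₀ : ℕ, ∀ (ι : Type) [Fintype ι] (G : Type) [AddCommGroup G] [Fintype G]
    (ev : (ι → ℤ) →+ G), PC s ev → Odd (Fintype.card G) → m₀ ≤ Fintype.card ι →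
    (2 * Fintype.card ι) % (s + 1) = 0 ∨ (2 * Fintype.card ι) % (s + 1) = 1 ∨
      (2 * Fintype.card ι) % (s + 1) = s

/-- (B) the residue class `0` of `2 m` modulo `s + 1`. -/
def T_B : Prop :=
  ∀ s : ℕ, 3 ≤ s → ∃ m₀ : ℕ, ∀ (ι : Type) [Fintype ι] (G : Type) [AddCommGroup G] [Fintype G]
    (ev : (ι → ℤ) →+ G), PC s ev → Odd (Fintype.card G) → m₀ ≤ Fintype.card ι →
    (2 * Fintype.card ι) % (s + 1) ≠ 0

/-- (P) from perfect spanning sets to `PC`. -/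
def T_P : Prop :=
  ∀ (G : Type) [AddCommGroup G] [Fintype G] (A : Finset G) (s : ℕ), 1 ≤ s → PerfectSpanning A s →
    (∃ ev : (A → ℤ) →+ G, PC s ev) ∧ Odd (Fintype.card G)

end

end Pool.Agent.H23.GC
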